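import Mathlib

/-!
# Inversions of the 2143-avoiding linear extensions of a `2 × s` rectangle

With `O_i = 2(s-i)` and `E_i = 2(s-i)+1` (values counted from `0`), a linear extension lists the
`O_i` and the `E_i` in order, with `O_i` before `E_i`; it avoids `2143` iff `E_j` is before `O_{j+2}`.
So it is `O_1 {O_2, E_1} {O_3, E_2} ⋯ {O_s, E_{s-1}} E_s`, with free choices of the order in the
pairs, and each choice of `E_i` before `O_{i+1}` gives one more inversion.
-/

set_option autoImplicit false

namespace Pool.Agent.Results.MP_490dbb_co.RectangleInversions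

open Finset Polynomial

/-- a linear extension of the poset `EN_{s,t}`, in one-line notation; positions and values are
counted from `0`, so that `q x = x / t` and `r x = x % t` -/
def IsLinExt (s t : ℕ) (π : Equiv.Perm (Fin (s * t))) : Prop :=
  ∀ i j, ((π i : ℕ) % t ≤ (π j : ℕ) % t ∧ (π j : ℕ) / t ≤ (π i : ℕ) / t) → i ≤ j

/-- `π` contains `2143` -/
def Contains2143 {n : ℕ} (π : Equiv.Perm (Fin n)) : Prop :=
  ∃ i j k l, i < j ∧ j < k ∧ k < l ∧ π j < π i ∧ π i < π l ∧ π l < π k

/-- the number of inversions -/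
def inv {n : ℕ} (π : Equiv.Perm (Fin n)) : ℕ :=
  ((univ : Finset (Fin n × Fin n)).filter (fun p => p.1 < p.2 ∧ π p.2 < π p.1)).card

open Classical in
/-- `EN_{s,t}(2143)` -/
noncomputable def EN (s t : ℕ) : Finset (Equiv.Perm (Fin (s * t))) :=
  univ.filter (fun π => IsLinExt s t π ∧ ¬ Contains2143 π)

/-! ### the permutation of a set of indices -/

/-- the bit of the index `i`: `E_i` is before `O_{i+1}` -/
def bit (s : ℕ) (T : Finset ℕ) (i : ℕ) : ℕ := if i ∈ T ∨ i = 0 ∨ i = s then 1 else 0

theorem bit_le (s : ℕ) (T : Finset ℕ) (i : ℕ) : bit s T i ≤ 1 := by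
  unfold bit; split_ifs <;> omega

theorem bit_zero (s : ℕ) (T : Finset ℕ) : bit s T 0 = 1 := by
  unfold bit; rw [if_pos (Or.inr (Or.inl rfl))]

theorem bit_s (s : ℕ) (T : Finset ℕ) : bit s T s = 1 := by
  unfold bit; rw [if_pos (Or.inr (Or.inr rfl))]

/-- the position of the value `v` -/
def pos (s : ℕ) (T : Finset ℕ) (v : ℕ) : ℕ :=
  if v % 2 = 0 then 2 * (s - 1 - v / 2) + bit s T (s - 1 - v / 2) - 1
  else 2 * (s - v / 2) - bit s T (s - v / 2)

theorem pos_even {s : ℕ} {T : Finset ℕ} {v : ℕ} (_hv : v < s * 2) (h : v % 2 = 0) :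
    pos s T v + 1 = 2 * (s - 1 - v / 2) + bit s T (s - 1 - v / 2) := by
  unfold pos
  rw [if_pos h]
  rcases Nat.eq_zero_or_pos (s - 1 - v / 2) with h0 | h0
  · rw [h0, bit_zero]
  · omega

theorem pos_odd {s : ℕ} {T : Finset ℕ} {v : ℕ} (_hv : v < s * 2) (h : v % 2 = 1) :
    pos s T v + bit s T (s - v / 2) = 2 * (s - v / 2) := by
  unfold pos
  rw [if_neg (by omega)]
  have := bit_le s T (s - v / 2)
  omega

theorem pos_lt {s : ℕ} {T : Finset ℕ} {v : ℕ} (hv : v < s * 2) : pos s T v < s * 2 := by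
  rcases Nat.mod_two_eq_zero_or_one v with h | h
  · have h1 := pos_even (T := T) hv h
    have h2 := bit_le s T (s - 1 - v / 2)
    omega
  · have h1 := pos_odd (T := T) hv h
    rcases Nat.lt_or_ge (s - v / 2) s with h3 | h3
    · omega
    · have h4 : s - v / 2 = s := by omega
      rw [h4, bit_s] at h1
      omega

/-- `pos` compares values as it should -/
theorem pos_lt_pos {s : ℕ} {T : Finset ℕ} {x y : ℕ} (hx : x < s * 2) (hy : y < s * 2) :
    pos s T x < pos s T y ↔
      ((x % 2 = 0 ∧ y % 2 = 0 ∧ y < x) ∨ (x % 2 = 1 ∧ y % 2 = 1 ∧ y < x) ∨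
        (x % 2 = 0 ∧ y % 2 = 1 ∧ (y / 2 ≤ x / 2 ∨
          (y / 2 = x / 2 + 1 ∧ bit s T (s - y / 2) = 0))) ∨
        (x % 2 = 1 ∧ y % 2 = 0 ∧ (y / 2 + 2 ≤ x / 2 ∨
          (x / 2 = y / 2 + 1 ∧ bit s T (s - x / 2) = 1)))) := by
  rcases Nat.mod_two_eq_zero_or_one x with h | h <;> rcases Nat.mod_two_eq_zero_or_one y with h' | h'
  · have h1 := pos_even (T := T) hx h
    have h2 := pos_even (T := T) hy h'
    have b1 := bit_le s T (s - 1 - x / 2)
    have b2 := bit_le s T (s - 1 - y / 2)
    by_cases hc : s - 1 - x / 2 = s - 1 - y / 2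
    · rw [hc] at h1
      omega
    · by_cases hc0 : s - 1 - x / 2 = 0
      · rw [hc0, bit_zero] at h1
        omega
      · omega
  · have h1 := pos_even (T := T) hx h
    have h2 := pos_odd (T := T) hy h'
    have b1 := bit_le s T (s - 1 - x / 2)
    have b2 := bit_le s T (s - y / 2)
    by_cases hc : s - 1 - x / 2 = s - y / 2
    · rw [hc] at h1
      omega
    · omega
  · have h1 := pos_odd (T := T) hx h
    have h2 := pos_even (T := T) hy h'
    have b1 := bit_le s T (s - x / 2)
    have b2 := bit_le s T (s - 1 - y / 2)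
    by_cases hc : s - x / 2 = s - 1 - y / 2
    · rw [hc] at h1 ⊢
      omega
    · omega
  · have h1 := pos_odd (T := T) hx h
    have h2 := pos_odd (T := T) hy h'
    have b1 := bit_le s T (s - x / 2)
    have b2 := bit_le s T (s - y / 2)
    by_cases hc : s - x / 2 = s - y / 2
    · rw [hc] at h1
      omega
    · by_cases hc0 : s - y / 2 = s
      · rw [hc0, bit_s] at h2
        omega
      · omega

theorem pos_inj {s : ℕ} {T : Finset ℕ} {x y : ℕ} (hx : x < s * 2) (hy : y < s * 2)
    (h : pos s T x = pos s T y) : x = y := by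
  have h1 := pos_lt_pos (T := T) hx hy
  have h2 := pos_lt_pos (T := T) hy hx
  rw [h] at h1 h2
  have b1 := bit_le s T (s - x / 2)
  have b2 := bit_le s T (s - y / 2)
  have h3 := h1.not.1 (lt_irrefl _)
  have h4 := h2.not.1 (lt_irrefl _)
  rcases Nat.mod_two_eq_zero_or_one x with h | h <;> rcases Nat.mod_two_eq_zero_or_one y with h' | h'
    <;> omega

/-- the permutation of `T`, from values to positions -/
noncomputable def sig (s : ℕ) (T : Finset ℕ) : Equiv.Perm (Fin (s * 2)) :=
  Equiv.ofBijective (fun v => ⟨pos s T v, pos_lt v.2⟩)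
    (Finite.injective_iff_bijective.1 (fun x y h => by
      rw [Fin.mk.injEq] at h
      exact Fin.ext (pos_inj x.2 y.2 h)))

theorem sig_val (s : ℕ) (T : Finset ℕ) (v : Fin (s * 2)) : (sig s T v : ℕ) = pos s T v := rfl

theorem sig_lt {s : ℕ} {T : Finset ℕ} {x y : Fin (s * 2)} :
    sig s T x < sig s T y ↔ pos s T x < pos s T y := Iff.rfl

/-! ### the elements of `EN` -/

/-- the comparisons forced by the two conditions -/
theorem sym_lt {s : ℕ} {π : Equiv.Perm (Fin (s * 2))} (h : IsLinExt s 2 π)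
    {x y : Fin (s * 2)} (hr : (x : ℕ) % 2 ≤ (y : ℕ) % 2) (hq : (y : ℕ) / 2 ≤ (x : ℕ) / 2)
    (hne : (x : ℕ) ≠ y) : π.symm x < π.symm y := by
  have h1 := h (π.symm x) (π.symm y) (by simpa using ⟨hr, hq⟩)
  refine lt_of_le_of_ne h1 (fun he => hne ?_)
  have := π.symm.injective he
  rw [this]

theorem sym_lt' {s : ℕ} {π : Equiv.Perm (Fin (s * 2))} (h : IsLinExt s 2 π)
    (h' : ¬ Contains2143 π) {x y : Fin (s * 2)} (hx : (x : ℕ) % 2 = 1) (hy : (y : ℕ) % 2 = 0)
    (hxy : (y : ℕ) / 2 + 2 ≤ (x : ℕ) / 2) : π.symm x < π.symm y := by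
  by_contra hc
  push Not at hc
  have hne : π.symm y ≠ π.symm x := fun he => by
    have := π.symm.injective he
    rw [this] at hy
    omega
  have hlt := lt_of_le_of_ne hc hne
  have hx2 := x.2
  have hy2 := y.2
  apply h'
  refine ⟨π.symm ⟨2 * ((x : ℕ) / 2 - 1), by omega⟩, π.symm y, π.symm x,
    π.symm ⟨2 * ((x : ℕ) / 2 - 1) + 1, by omega⟩, ?_, hlt, ?_, ?_, ?_, ?_⟩
  · apply sym_lt h <;> simp only <;> omega
  · apply sym_lt h <;> simp only <;> omega
  · rw [Equiv.apply_symm_apply, Equiv.apply_symm_apply, Fin.lt_def]; simp only; omega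
  · rw [Equiv.apply_symm_apply, Equiv.apply_symm_apply, Fin.lt_def]; simp only; omega
  · rw [Equiv.apply_symm_apply, Equiv.apply_symm_apply, Fin.lt_def]; simp only; omega

open Classical in
/-- the set of the indices `i` with `E_i` before `O_{i+1}` -/
noncomputable def TT (s : ℕ) (π : Equiv.Perm (Fin (s * 2))) : Finset ℕ :=
  (Icc 1 (s - 1)).filter (fun i => ∀ (h1 : 2 * (s - i) + 1 < s * 2) (h2 : 2 * (s - 1 - i) < s * 2),
    π.symm ⟨2 * (s - i) + 1, h1⟩ < π.symm ⟨2 * (s - 1 - i), h2⟩)

theorem mem_EN_sig {s : ℕ} (T : Finset ℕ) : (sig s T).symm ∈ EN s 2 := by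
  classical
  unfold EN
  rw [mem_filter]
  refine ⟨mem_univ _, ?_, ?_⟩
  · rintro i j ⟨h1, h2⟩
    obtain ⟨x, rfl⟩ := (sig s T).surjective i
    obtain ⟨y, rfl⟩ := (sig s T).surjective j
    rw [Equiv.symm_apply_apply, Equiv.symm_apply_apply] at h1 h2
    by_cases hxy : x = y
    · rw [hxy]
    · apply le_of_lt
      rw [sig_lt, pos_lt_pos x.2 y.2]
      have hne : (x : ℕ) ≠ y := fun h => hxy (Fin.ext h)
      rcases Nat.mod_two_eq_zero_or_one (x : ℕ) with h | h <;>
        rcases Nat.mod_two_eq_zero_or_one (y : ℕ) with h' | h' <;> omega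
  · rintro ⟨i, j, k, l, h1, h2, h3, h4, h5, h6⟩
    obtain ⟨b, rfl⟩ := (sig s T).surjective i
    obtain ⟨a, rfl⟩ := (sig s T).surjective j
    obtain ⟨d, rfl⟩ := (sig s T).surjective k
    obtain ⟨c, rfl⟩ := (sig s T).surjective l
    simp only [Equiv.symm_apply_apply] at h4 h5 h6
    rw [sig_lt, pos_lt_pos b.2 a.2] at h1
    rw [sig_lt, pos_lt_pos a.2 d.2] at h2
    rw [sig_lt, pos_lt_pos d.2 c.2] at h3
    rw [Fin.lt_def] at h4 h5 h6
    omega

theorem sig_TT {s : ℕ} {π : Equiv.Perm (Fin (s * 2))} (hπ : π ∈ EN s 2) :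
    (sig s (TT s π)).symm = π := by
  classical
  unfold EN at hπ
  rw [mem_filter] at hπ
  obtain ⟨_, h, h'⟩ := hπ
  -- the comparison of positions
  have key : ∀ x y : Fin (s * 2), sig s (TT s π) x < sig s (TT s π) y → π.symm x < π.symm y := by
    intro x y hxy
    rw [sig_lt, pos_lt_pos x.2 y.2] at hxy
    have hx2 := x.2
    have hy2 := y.2
    rcases hxy with ⟨h1, h2, h3⟩ | ⟨h1, h2, h3⟩ | ⟨h1, h2, h3⟩ | ⟨h1, h2, h3⟩
    · exact sym_lt h (by omega) (by omega) (by omega)
    · exact sym_lt h (by omega) (by omega) (by omega)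
    · rcases h3 with h3 | ⟨h3, h4⟩
      · exact sym_lt h (by omega) (by omega) (by omega)
      · by_contra hc
        have hlt : π.symm y < π.symm x := by
          refine lt_of_le_of_ne (not_lt.1 hc) (fun he => ?_)
          have := π.symm.injective he
          rw [this] at h2
          omega
        unfold bit at h4
        by_cases hb : s - (y : ℕ) / 2 ∈ TT s π ∨ s - (y : ℕ) / 2 = 0 ∨ s - (y : ℕ) / 2 = s
        · rw [if_pos hb] at h4
          omega
        apply hb
        left
        unfold TT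
        rw [mem_filter, mem_Icc]
        refine ⟨by omega, ?_⟩
        intro p1 p2
        have e1 : (⟨2 * (s - (s - (y : ℕ) / 2)) + 1, p1⟩ : Fin (s * 2)) = y :=
          Fin.ext (by simp only; omega)
        have e2 : (⟨2 * (s - 1 - (s - (y : ℕ) / 2)), p2⟩ : Fin (s * 2)) = x :=
          Fin.ext (by simp only; omega)
        rw [e1, e2]
        exact hlt
    · rcases h3 with h3 | ⟨h3, h4⟩
      · exact sym_lt' h h' h1 h2 h3
      · unfold bit at h4
        by_cases hb : s - (x : ℕ) / 2 ∈ TT s π ∨ s - (x : ℕ) / 2 = 0 ∨ s - (x : ℕ) / 2 = s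
        · rcases hb with hb | hb
          · unfold TT at hb
            rw [mem_filter] at hb
            have p1 : 2 * (s - (s - (x : ℕ) / 2)) + 1 < s * 2 := by omega
            have p2 : 2 * (s - 1 - (s - (x : ℕ) / 2)) < s * 2 := by omega
            have h5 := hb.2 p1 p2
            have e1 : (⟨2 * (s - (s - (x : ℕ) / 2)) + 1, p1⟩ : Fin (s * 2)) = x :=
              Fin.ext (by simp only; omega)
            have e2 : (⟨2 * (s - 1 - (s - (x : ℕ) / 2)), p2⟩ : Fin (s * 2)) = y :=
              Fin.ext (by simp only; omega)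
            rw [e1, e2] at h5
            exact h5
          · omega
        · rw [if_neg hb] at h4
          omega
  have hmono : StrictMono (fun i => π.symm ((sig s (TT s π)).symm i)) := by
    intro i j hij
    apply key
    simpa using hij
  have h1 : (fun i => π.symm ((sig s (TT s π)).symm i)) = id := by
    apply (hmono.range_inj strictMono_id).1
    rw [Set.range_id]
    exact (π.symm.surjective.comp (sig s (TT s π)).symm.surjective).range_eq
  ext i
  have h2 := congrFun h1 i
  simp only [id] at h2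
  rw [Equiv.symm_apply_eq] at h2
  rw [h2]

theorem TT_sig {s : ℕ} {T : Finset ℕ} (hT : T ⊆ Icc 1 (s - 1)) : TT s (sig s T).symm = T := by
  classical
  ext i
  unfold TT
  rw [mem_filter]
  constructor
  · rintro ⟨h1, h2⟩
    rw [mem_Icc] at h1
    have p1 : 2 * (s - i) + 1 < s * 2 := by omega
    have p2 : 2 * (s - 1 - i) < s * 2 := by omega
    have h3 := h2 p1 p2
    rw [Equiv.symm_symm, sig_lt, pos_lt_pos p1 p2] at h3
    have e : s - (2 * (s - i) + 1) / 2 = i := by omega
    rw [e] at h3
    have h4 : bit s T i = 1 := by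
      rcases h3 with h3 | h3 | h3 | h3
      · omega
      · omega
      · omega
      · rcases h3.2.2 with h5 | h5
        · omega
        · exact h5.2
    unfold bit at h4
    by_contra hc
    rw [if_neg (by
      rintro (h | h | h)
      · exact hc h
      · omega
      · omega)] at h4
    omega
  · intro hi
    have h1 := hT hi
    refine ⟨h1, ?_⟩
    intro p1 p2
    rw [mem_Icc] at h1
    rw [Equiv.symm_symm, sig_lt, pos_lt_pos p1 p2]
    have e : s - (2 * (s - i) + 1) / 2 = i := by omega
    rw [e]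
    have : bit s T i = 1 := by unfold bit; rw [if_pos (Or.inl hi)]
    omega

/-! ### inversions -/

theorem card_lt (n : ℕ) :
    ((univ : Finset (Fin n × Fin n)).filter (fun p => p.1 < p.2)).card * 2 = n * (n - 1) := by
  have h1 : ((univ : Finset (Fin n × Fin n)).filter (fun p => p.1 < p.2)).card =
      ∑ y : Fin n, (y : ℕ) := by
    rw [card_eq_sum_card_fiberwise (f := fun p : Fin n × Fin n => p.2) (t := univ)
      (fun p _ => mem_coe.2 (mem_univ _))]
    refine sum_congr rfl (fun y _ => ?_)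
    rw [← Fin.card_Iio y]
    symm
    apply card_nbij' (fun x => (x, y)) (fun p => p.1)
    · intro x hx
      rw [mem_coe, mem_Iio] at hx
      rw [mem_coe, mem_filter, mem_filter]
      exact ⟨⟨mem_univ _, hx⟩, rfl⟩
    · rintro ⟨x, z⟩ hp
      rw [mem_coe, mem_filter, mem_filter] at hp
      rw [mem_coe, mem_Iio]
      obtain ⟨⟨_, h1⟩, h2⟩ := hp
      simp only at h1 h2
      rw [← h2]
      exact h1
    · intro x _; rfl
    · rintro ⟨x, z⟩ hp
      rw [mem_coe, mem_filter, mem_filter] at hp
      simp only at hp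
      rw [← hp.2]
  rw [h1, Fin.sum_univ_eq_sum_range (fun i => i) n, sum_range_id_mul_two]

theorem inv_sig {s : ℕ} {T : Finset ℕ} (hs : 1 ≤ s) (hT : T ⊆ Icc 1 (s - 1)) :
    inv (sig s T).symm = (2 * s - 1) * (s - 1) + T.card := by
  classical
  have h1 : inv (sig s T).symm =
      ((univ : Finset (Fin (s * 2) × Fin (s * 2))).filter
        (fun p => p.1 < p.2 ∧ sig s T p.2 < sig s T p.1)).card := by
    unfold inv
    apply card_nbij' (fun p => ((sig s T).symm p.2, (sig s T).symm p.1))
      (fun p => (sig s T p.2, sig s T p.1))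
    · rintro ⟨i, j⟩ hp
      rw [mem_coe, mem_filter] at hp ⊢
      simp only [Equiv.apply_symm_apply, mem_univ, true_and] at hp ⊢
      exact ⟨hp.2, hp.1⟩
    · rintro ⟨i, j⟩ hp
      rw [mem_coe, mem_filter] at hp ⊢
      simp only [Equiv.symm_apply_apply, mem_univ, true_and] at hp ⊢
      exact ⟨hp.2, hp.1⟩
    · rintro ⟨i, j⟩ _; simp
    · rintro ⟨i, j⟩ _; simp
  have h2 : ((univ : Finset (Fin (s * 2) × Fin (s * 2))).filter (fun p => p.1 < p.2)).card =
      ((univ : Finset (Fin (s * 2) × Fin (s * 2))).filter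
        (fun p => p.1 < p.2 ∧ sig s T p.2 < sig s T p.1)).card +
      ((univ : Finset (Fin (s * 2) × Fin (s * 2))).filter
        (fun p => p.1 < p.2 ∧ sig s T p.1 < sig s T p.2)).card := by
    rw [← card_union_of_disjoint]
    · congr 1
      ext p
      simp only [mem_filter, mem_univ, true_and, mem_union]
      constructor
      · intro h
        rcases lt_trichotomy (sig s T p.1) (sig s T p.2) with h3 | h3 | h3
        · exact Or.inr ⟨h, h3⟩
        · exact absurd ((sig s T).injective h3) h.ne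
        · exact Or.inl ⟨h, h3⟩
      · rintro (h | h) <;> exact h.1
    · rw [disjoint_left]
      intro p h3 h4
      rw [mem_filter] at h3 h4
      exact absurd (h3.2.2.trans h4.2.2) (lt_irrefl _)
  have h3 : ((univ : Finset (Fin (s * 2) × Fin (s * 2))).filter
        (fun p => p.1 < p.2 ∧ sig s T p.1 < sig s T p.2)).card = s + (s - 1 - T.card) := by
    have e1 : ((univ : Finset (Fin (s * 2) × Fin (s * 2))).filter
        (fun p => p.1 < p.2 ∧ sig s T p.1 < sig s T p.2)) =
        (univ.filter (fun p => (p.1 : ℕ) % 2 = 0 ∧ (p.2 : ℕ) = p.1 + 1)) ∪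
        (univ.filter (fun p => (p.1 : ℕ) % 2 = 0 ∧ (p.2 : ℕ) = p.1 + 3 ∧
          bit s T (s - (p.2 : ℕ) / 2) = 0)) := by
      ext ⟨x, y⟩
      simp only [mem_filter, mem_univ, true_and, mem_union]
      rw [sig_lt, pos_lt_pos x.2 y.2, Fin.lt_def]
      omega
    rw [e1, card_union_of_disjoint]
    · congr 1
      · refine Eq.trans ?_ (card_range s)
        apply card_nbij (fun p : Fin (s * 2) × Fin (s * 2) => (p.1 : ℕ) / 2)
        · rintro ⟨x, y⟩ _
          rw [mem_coe, mem_range]
          have := x.2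
          simp only
          omega
        · rintro ⟨x, y⟩ hp ⟨x', y'⟩ hp' h
          rw [mem_coe, mem_filter] at hp hp'
          simp only at hp hp' h
          refine Prod.ext (Fin.ext ?_) (Fin.ext ?_) <;> simp only <;> omega
        · intro q hq
          rw [mem_coe, mem_range] at hq
          refine ⟨(⟨2 * q, by omega⟩, ⟨2 * q + 1, by omega⟩), ?_, ?_⟩
          · rw [mem_coe, mem_filter]
            refine ⟨mem_univ _, ?_, ?_⟩ <;> simp only <;> omega
          · simp only; omega
      · have e2 : s - 1 - T.card = (Icc 1 (s - 1) \ T).card := by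
          rw [card_sdiff_of_subset hT, Nat.card_Icc]
          omega
        rw [e2]
        have hbit : ∀ i, bit s T i = 0 ↔ ¬ (i ∈ T ∨ i = 0 ∨ i = s) := by
          intro i
          unfold bit
          split_ifs with h
          · exact ⟨fun h' => absurd h' (by norm_num), fun h' => absurd h h'⟩
          · exact ⟨fun _ => h, fun _ => rfl⟩
        apply card_nbij (fun p : Fin (s * 2) × Fin (s * 2) => s - (p.2 : ℕ) / 2)
        · rintro ⟨x, y⟩ hp
          rw [mem_coe, mem_filter] at hp
          obtain ⟨_, h4, h5, h6⟩ := hp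
          simp only at h4 h5 h6
          rw [hbit] at h6
          rw [mem_coe, mem_sdiff, mem_Icc]
          have := y.2
          simp only
          refine ⟨by omega, fun h => h6 (Or.inl h)⟩
        · rintro ⟨x, y⟩ hp ⟨x', y'⟩ hp' h
          rw [mem_coe, mem_filter] at hp hp'
          simp only at hp hp' h
          have := y.2
          have := y'.2
          refine Prod.ext (Fin.ext ?_) (Fin.ext ?_) <;> simp only <;> omega
        · intro i hi
          rw [mem_coe, mem_sdiff, mem_Icc] at hi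
          refine ⟨(⟨2 * (s - 1 - i), by omega⟩, ⟨2 * (s - i) + 1, by omega⟩), ?_, ?_⟩
          · rw [mem_coe, mem_filter]
            refine ⟨mem_univ _, ?_, ?_, ?_⟩
            · simp only; omega
            · simp only; omega
            · simp only
              rw [show s - (2 * (s - i) + 1) / 2 = i by omega, hbit]
              rintro (h | h | h)
              · exact hi.2 h
              · omega
              · omega
          · simp only; omega
    · rw [disjoint_left]
      rintro ⟨x, y⟩ h4 h5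
      simp only [mem_filter, mem_univ, true_and] at h4 h5
      omega
  have h4 := card_lt (s * 2)
  have h5 : T.card ≤ s - 1 := by
    have := card_le_card hT
    rwa [Nat.card_Icc, show s - 1 + 1 - 1 = s - 1 by omega] at this
  rw [h1]
  rw [h2, h3] at h4
  obtain ⟨m, rfl⟩ : ∃ m, s = m + 1 := ⟨s - 1, by omega⟩
  simp only [Nat.add_sub_cancel] at h4 h5 ⊢
  have e1 : (m + 1) * 2 - 1 = 2 * m + 1 := by omega
  have e2 : 2 * (m + 1) - 1 = 2 * m + 1 := by omega
  rw [e1] at h4
  rw [e2]
  obtain ⟨c, hc⟩ : ∃ c, T.card + c = m := ⟨m - T.card, by omega⟩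
  have e3 : m - T.card = c := by omega
  rw [e3] at h4
  nlinarith

/-- For every `s ≥ 1`, the inversion generating polynomial of the 2143-avoiding linear extensions
of `EN_{s,2}` is `q^{(2s-1)(s-1)} (1+q)^{s-1}`. -/
theorem result : ∀ s : ℕ, 1 ≤ s →
    ∑ π ∈ EN s 2, (X : ℤ[X]) ^ inv π = X ^ ((2 * s - 1) * (s - 1)) * (1 + X) ^ (s - 1) := by
  intro s hs
  have h1 : ∑ π ∈ EN s 2, (X : ℤ[X]) ^ inv π =
      ∑ T ∈ (Icc 1 (s - 1)).powerset, (X : ℤ[X]) ^ ((2 * s - 1) * (s - 1) + T.card) := by
    symm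
    apply sum_nbij' (fun T => (sig s T).symm) (fun π => TT s π)
    · intro T _; exact mem_EN_sig T
    · intro π _
      rw [mem_powerset]
      unfold TT
      exact filter_subset _ _
    · intro T hT
      rw [mem_powerset] at hT
      exact TT_sig hT
    · intro π hπ
      exact sig_TT hπ
    · intro T hT
      rw [mem_powerset] at hT
      rw [inv_sig hs hT]
  rw [h1]
  have h2 : (1 + (X : ℤ[X])) ^ (s - 1) = ∑ T ∈ (Icc 1 (s - 1)).powerset, (X : ℤ[X]) ^ T.card := by
    have h3 := prod_one_add (f := fun _ : ℕ => (X : ℤ[X])) (Icc 1 (s - 1))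
    rw [prod_const, Nat.card_Icc, show s - 1 + 1 - 1 = s - 1 by omega] at h3
    rw [h3]
    refine sum_congr rfl (fun T _ => ?_)
    rw [prod_const]
  rw [h2, mul_sum]
  refine sum_congr rfl (fun T _ => ?_)
  rw [pow_add]

end Pool.Agent.Results.MP_490dbb_co.RectangleInversions
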